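import Pool.Agent.W423.NX.Defs

set_option autoImplicit false

namespace Pool.Agent.W503.NX

variable {A : Type} [CommRing A]

/-! Rising factorials of group sums. -/

/-- rising factorial -/
def rs (x : A) (n : ℕ) : A := ∏ i ∈ Finset.range n, (x + (i : A))

lemma rs_succ (x : A) (n : ℕ) : rs x (n+1) = rs x n * (x + (n : A)) := by
  simp [rs, Finset.prod_range_succ]

lemma rs_dvd (x : A) {m n : ℕ} (h : m ≤ n) : rs x m ∣ rs x n := by
  obtain ⟨k, rfl⟩ := Nat.exists_eq_add_of_le h
  unfold rs
  rw [Finset.prod_range_add]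
  exact Dvd.intro _ rfl

lemma rs_add_mem (x y : A) (n : ℕ) :
    rs (x + y) n ∈ Ideal.span {p : A | ∃ i j, i + j = n ∧ p = rs x i * rs y j} := by
  induction n with
  | zero =>
    apply Ideal.subset_span
    exact ⟨0, 0, rfl, by simp [rs]⟩
  | succ n ih =>
    rw [rs_succ]
    have key : ∀ q ∈ Ideal.span {p : A | ∃ i j, i + j = n ∧ p = rs x i * rs y j},
        q * (x + y + (n : A)) ∈
          Ideal.span {p : A | ∃ i j, i + j = n + 1 ∧ p = rs x i * rs y j} := by
      intro q hq
      induction hq using Submodule.span_induction with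
      | mem q hq =>
        obtain ⟨i, j, hij, rfl⟩ := hq
        have e : rs x i * rs y j * (x + y + (n : A)) =
            rs x (i+1) * rs y j + rs x i * rs y (j+1) := by
          rw [rs_succ, rs_succ, ← hij]
          push_cast
          ring
        rw [e]
        apply Ideal.add_mem
        · exact Ideal.subset_span ⟨i+1, j, by omega, rfl⟩
        · exact Ideal.subset_span ⟨i, j+1, by omega, rfl⟩
      | zero => rw [zero_mul]; exact Ideal.zero_mem _
      | add a b _ _ ha hb => rw [add_mul]; exact Ideal.add_mem _ ha hb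
      | smul c a _ ha => rw [smul_eq_mul, mul_assoc]; exact Ideal.mul_mem_left _ _ ha
    exact key _ ih

lemma rs_add_ideal (I : Ideal A) (x y : A) (a b n : ℕ) (hx : rs x a ∈ I) (hy : rs y b ∈ I)
    (h : a + b ≤ n + 1) : rs (x + y) n ∈ I := by
  refine (Ideal.span_le.2 ?_) (rs_add_mem x y n)
  rintro p ⟨i, j, hij, rfl⟩
  by_cases hi : a ≤ i
  · exact Ideal.mul_mem_right _ _ (I.mem_of_dvd (rs_dvd x hi) hx)
  · exact Ideal.mul_mem_left _ _ (I.mem_of_dvd (rs_dvd y (by omega)) hy)

lemma rs_sum_mem {ι : Type} (I : Ideal A) (f : ι → A) (M : ℕ) (s : Finset ι)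
    (h : ∀ j ∈ s, rs (f j) (M+1) ∈ I) : rs (∑ j ∈ s, f j) (s.card * M + 1) ∈ I := by
  classical
  induction s using Finset.induction_on with
  | empty => simp [rs]
  | insert j s hj ih =>
    rw [Finset.sum_insert hj, Finset.card_insert_of_notMem hj]
    refine rs_add_ideal I _ _ (M+1) (s.card * M + 1) _ (h j (Finset.mem_insert_self _ _))
      (ih fun i hi => h i (Finset.mem_insert_of_mem hi)) ?_
    rw [add_mul]
    omega

open MvPolynomial Pool.Agent.W425.SM Pool.Agent.W423.MG Pool.Agent.W423.NX

theorem rise_mem : Pool.Agent.W423.NX.TaskRise := by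
  classical
  intro r P g k M
  have hd : ∀ j : Fin r, rs (X j : MvPolynomial (Fin r) ℂ) (M+1) = X j * dm M j := by
    intro j
    unfold rs dm
    rw [Finset.prod_range_succ']
    simp only [Nat.cast_zero, add_zero]
    rw [mul_comm]
    congr 1
  have hs : sgm g k = ∑ j ∈ Finset.univ.filter (fun j => g j = k), (X j : MvPolynomial (Fin r) ℂ) := by
    unfold sgm gs
    rw [Finset.sum_filter]
  have hm := rs_sum_mem (Ideal.span {p : MvPolynomial (Fin r) ℂ | ∃ j, g j = k ∧ p = X j * dm M j})
    (fun j => (X j : MvPolynomial (Fin r) ℂ)) M (Finset.univ.filter (fun j => g j = k))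
    (fun j hj => by
      rw [hd]
      exact Ideal.subset_span ⟨j, (Finset.mem_filter.1 hj).2, rfl⟩)
  rw [← hs] at hm
  have hc : (Finset.univ.filter (fun j => g j = k)).card * M + 1 ≤ r * M + 1 := by
    have h1 : (Finset.univ.filter (fun j => g j = k)).card ≤ r := by
      refine (Finset.card_le_univ _).trans ?_
      simp
    exact Nat.add_le_add_right (Nat.mul_le_mul_right M h1) 1
  have hf := Ideal.mem_of_dvd _ (rs_dvd (sgm g k) hc) hm
  have e : rs (sgm g k) (r * M + 1) =
      ∏ i ∈ Finset.range (r * M + 1), (sgm g k + C (i : ℂ)) := by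
    unfold rs
    refine Finset.prod_congr rfl fun i _ => ?_
    rw [← map_natCast (C : ℂ →+* MvPolynomial (Fin r) ℂ)]
  rw [← e]
  exact hf

end Pool.Agent.W503.NX
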